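import Pool.Agent.helper37.MA.Spec

set_option autoImplicit false

namespace Pool.Agent.helper37.MA

open Finset Pool.Agent.NK Pool.Agent.helper37.NF

theorem TAI_step (n t : ℕ) (h : 3 * (t + 1) ≤ n + 1) : 2 * n.choose t ≤ n.choose (t + 1) := by
  have h1 := Nat.choose_succ_right_eq n t
  have h2 : 2 * (t + 1) ≤ n - t := by omega
  have h3 : n.choose t * (2 * (t + 1)) ≤ n.choose t * (n - t) := Nat.mul_le_mul_left _ h2
  have h4 : (2 * n.choose t) * (t + 1) ≤ n.choose (t + 1) * (t + 1) := by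
    rw [h1]
    calc (2 * n.choose t) * (t + 1) = n.choose t * (2 * (t + 1)) := by ring
      _ ≤ _ := h3
  exact Nat.le_of_mul_le_mul_right h4 (Nat.succ_pos t)

theorem TAI_sum (n : ℕ) : ∀ m : ℕ, 3 * m ≤ n + 1 → ∑ t ∈ range (m + 1), n.choose t ≤ 2 * n.choose m := by
  intro m
  induction m with
  | zero => intro _; simp
  | succ m ih =>
    intro h
    have h1 := ih (by omega)
    have h2 := TAI_step n m h
    rw [Finset.sum_range_succ]
    omega

theorem TAI_pow (n m : ℕ) : ∀ d : ℕ, 3 * (m + d) ≤ n + 1 → 2 ^ d * n.choose m ≤ n.choose (m + d) := by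
  intro d
  induction d with
  | zero => intro _; simp
  | succ d ih =>
    intro h
    have h1 := ih (by omega)
    have h2 := TAI_step n (m + d) (by omega)
    calc 2 ^ (d + 1) * n.choose m = 2 * (2 ^ d * n.choose m) := by ring
      _ ≤ 2 * n.choose (m + d) := Nat.mul_le_mul_left _ h1
      _ ≤ n.choose (m + d + 1) := h2

theorem TAI_mono (n m : ℕ) : ∀ d : ℕ, 2 * (m + d) ≤ n → n.choose m ≤ n.choose (m + d) := by
  intro d
  induction d with
  | zero => intro _; simp
  | succ d ih =>
    intro h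
    exact (ih (by omega)).trans (Nat.choose_le_succ_of_lt_half_left (by omega))

theorem TAI : TAI_stmt := by
  intro n k h1 h2
  have a1 := TAI_sum n (n / 4) (by omega)
  have a2 := TAI_pow n (n / 4) (n / 3 - n / 4) (by omega)
  have e1 : n / 4 + (n / 3 - n / 4) = n / 3 := by omega
  rw [e1] at a2
  have a3 := TAI_mono n (n / 3) (k - n / 3) (by omega)
  have e2 : n / 3 + (k - n / 3) = k := by omega
  rw [e2] at a3
  calc 2 ^ (n / 3 - n / 4) * ∑ t ∈ range (n / 4 + 1), n.choose t
      ≤ 2 ^ (n / 3 - n / 4) * (2 * n.choose (n / 4)) := Nat.mul_le_mul_left _ a1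
    _ = 2 * (2 ^ (n / 3 - n / 4) * n.choose (n / 4)) := by ring
    _ ≤ 2 * n.choose k := Nat.mul_le_mul_left _ (a2.trans a3)

end Pool.Agent.helper37.MA
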